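import Mathlib

/-!
# QS-Par, second copy of Helper26/QS/Par.lean (MP_36c81c_nt)
-/

set_option autoImplicit false

namespace Pool.Agent.Helper43.QS

open Filter

/-- the final limit -/
theorem par_lim (A B c C : ℝ) (hc : 0 < c) (hC : 1 ≤ C) : ∃ N0 : ℕ, ∀ N : ℕ, N0 ≤ N →
    A * ((2 + Real.log N) * (N : ℝ) ^ (-(35 * c))) + B * (N : ℝ) ^ (-(46 * c)) ≤ 1 / C := by
  have h1 : Tendsto (fun x : ℝ => x ^ (-(35 * c))) atTop (nhds 0) :=
    tendsto_rpow_neg_atTop (by positivity)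
  have h2 : Tendsto (fun x : ℝ => x ^ (-(46 * c))) atTop (nhds 0) :=
    tendsto_rpow_neg_atTop (by positivity)
  have h3 : Tendsto (fun x : ℝ => Real.log x / x ^ (35 * c)) atTop (nhds 0) :=
    (isLittleO_log_rpow_atTop (by positivity : (0 : ℝ) < 35 * c)).tendsto_div_nhds_zero
  have h4 : Tendsto (fun x : ℝ => A * (2 * x ^ (-(35 * c)) + Real.log x / x ^ (35 * c)) +
      B * x ^ (-(46 * c))) atTop (nhds (A * (2 * 0 + 0) + B * 0)) :=
    (((h1.const_mul 2).add h3).const_mul A).add (h2.const_mul B)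
  have h5 : A * (2 * 0 + 0) + B * 0 = 0 := by ring
  rw [h5] at h4
  have h6 : (0 : ℝ) < 1 / C := by positivity
  have h7 := (h4.comp tendsto_natCast_atTop_atTop).eventually (ge_mem_nhds h6)
  obtain ⟨N0, hN0⟩ := eventually_atTop.1 h7
  refine ⟨max N0 1, fun N hN => ?_⟩
  have h8 := hN0 N (le_trans (le_max_left _ _) hN)
  have hN1 : 1 ≤ N := le_trans (le_max_right _ _) hN
  have hx : (0 : ℝ) < N := by exact_mod_cast hN1
  simp only [Function.comp_apply] at h8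
  refine le_trans (le_of_eq ?_) h8
  rw [Real.rpow_neg hx.le (35 * c)]
  ring

theorem par (δ ε C T : ℝ) (hδ : 0 ≤ δ) (h : 10 * δ < ε) (hε1 : ε ≤ 1) (hC : 1 ≤ C) (hT : 1 ≤ T) :
    ∃ N0 : ℕ, ∀ N : ℕ, N0 ≤ N → ∀ (Y R E : ℝ) (J : ℕ), (N : ℝ) ≤ Y →
    Y ≤ T * (N : ℝ) ^ (1 + δ + 3 * ((ε - 10 * δ) / 100)) →
    (N : ℝ) ^ (9 * δ + 50 * ((ε - 10 * δ) / 100)) ≤ R →
    R ≤ 2 * (N : ℝ) ^ (9 * δ + 50 * ((ε - 10 * δ) / 100)) → 0 ≤ E →
    E ≤ T * (N : ℝ) ^ (1 - ε + (ε - 10 * δ) / 100) → (J : ℝ) ≤ T * (Y / (N : ℝ) ^ (1 - δ)) ^ 2 →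
    1 / (2 * Y) * (256 * Y ^ 2 * (J : ℝ) ^ 2 * (3 / (4 * Y) + (1 + Real.log N) / N) / R +
      64 * R * E * Y ^ 2 / (N : ℝ) ^ 2) ≤ 1 / C := by
  obtain ⟨c, hc⟩ : ∃ c : ℝ, c = (ε - 10 * δ) / 100 := ⟨_, rfl⟩
  have hc0 : 0 < c := by
    rw [hc]
    linarith
  have hε : ε = 10 * δ + 100 * c := by
    rw [hc]
    ring
  rw [← hc]
  obtain ⟨N0, hN0⟩ := par_lim (128 * T ^ 7) (64 * T ^ 2) c C hc0 hC
  refine ⟨max N0 1, fun N hN Y R E J hY hY' hR hR' hE hE' hJ => ?_⟩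
  have hfin := hN0 N (le_trans (le_max_left _ _) hN)
  have hN1 : 1 ≤ N := le_trans (le_max_right _ _) hN
  have hx : (0 : ℝ) < N := by exact_mod_cast hN1
  have hx1 : (1 : ℝ) ≤ N := by exact_mod_cast hN1
  have hlog : 0 ≤ Real.log N := Real.log_natCast_nonneg N
  obtain ⟨x, hxd⟩ : ∃ x : ℝ, x = (N : ℝ) := ⟨_, rfl⟩
  rw [← hxd] at hfin hY hY' hR hR' hE' hJ hx hx1 hlog ⊢
  have hY0 : 0 < Y := by linarith
  have hR0 : 0 < R := lt_of_lt_of_le (by positivity) hR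
  have hT0 : 0 < T := by linarith
  have hJ0 : (0 : ℝ) ≤ J := Nat.cast_nonneg J
  -- the bounds
  have b1 : Y / x ≤ T * x ^ (δ + 3 * c) := by
    rw [div_le_iff₀ hx]
    refine hY'.trans (le_of_eq ?_)
    rw [show (1 : ℝ) + δ + 3 * c = δ + 3 * c + 1 by ring, Real.rpow_add hx, Real.rpow_one]
    ring
  have b2 : Y / x ^ (1 - δ) ≤ T * x ^ (2 * δ + 3 * c) := by
    rw [div_le_iff₀ (by positivity)]
    refine hY'.trans (le_of_eq ?_)
    rw [show (1 : ℝ) + δ + 3 * c = 2 * δ + 3 * c + (1 - δ) by ring, Real.rpow_add hx]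
    ring
  have b3 : (J : ℝ) ≤ T ^ 3 * x ^ (4 * δ + 6 * c) := by
    calc (J : ℝ) ≤ T * (Y / x ^ (1 - δ)) ^ 2 := hJ
      _ ≤ T * (T * x ^ (2 * δ + 3 * c)) ^ 2 := by gcongr
      _ = T ^ 3 * (x ^ (2 * δ + 3 * c) * x ^ (2 * δ + 3 * c)) := by ring
      _ = T ^ 3 * x ^ (4 * δ + 6 * c) := by
          rw [← Real.rpow_add hx]
          congr 2
          ring
  have b4 : (J : ℝ) ^ 2 ≤ T ^ 6 * x ^ (8 * δ + 12 * c) := by
    calc (J : ℝ) ^ 2 ≤ (T ^ 3 * x ^ (4 * δ + 6 * c)) ^ 2 := by gcongr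
      _ = T ^ 6 * (x ^ (4 * δ + 6 * c) * x ^ (4 * δ + 6 * c)) := by ring
      _ = T ^ 6 * x ^ (8 * δ + 12 * c) := by
          rw [← Real.rpow_add hx]
          congr 2
          ring
  have b5 : 3 / (4 * Y) + (1 + Real.log x) / x ≤ (2 + Real.log x) / x := by
    have e1 : 3 / (4 * Y) ≤ 1 / x := by
      rw [div_le_div_iff₀ (by positivity) hx]
      linarith
    have e2 : (2 + Real.log x) / x = 1 / x + (1 + Real.log x) / x := by ring
    rw [e2]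
    linarith
  have hx2 : x ^ 2 = x ^ (2 : ℝ) := (Real.rpow_two x).symm
  have first : 1 / (2 * Y) * (256 * Y ^ 2 * (J : ℝ) ^ 2 *
      (3 / (4 * Y) + (1 + Real.log x) / x) / R) ≤
      128 * T ^ 7 * ((2 + Real.log x) * x ^ (-(35 * c))) := by
    calc 1 / (2 * Y) * (256 * Y ^ 2 * (J : ℝ) ^ 2 *
          (3 / (4 * Y) + (1 + Real.log x) / x) / R)
        = 128 * Y * (J : ℝ) ^ 2 * (3 / (4 * Y) + (1 + Real.log x) / x) / R := by
          field_simp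
          ring
      _ ≤ 128 * Y * (J : ℝ) ^ 2 * ((2 + Real.log x) / x) / R := by gcongr
      _ = 128 * (Y / x) * (J : ℝ) ^ 2 * (2 + Real.log x) / R := by ring
      _ ≤ 128 * (T * x ^ (δ + 3 * c)) * (T ^ 6 * x ^ (8 * δ + 12 * c)) * (2 + Real.log x) /
          x ^ (9 * δ + 50 * c) := by gcongr
      _ = 128 * T ^ 7 * ((2 + Real.log x) *
          (x ^ (δ + 3 * c) * x ^ (8 * δ + 12 * c) / x ^ (9 * δ + 50 * c))) := by ring
      _ = 128 * T ^ 7 * ((2 + Real.log x) * x ^ (-(35 * c))) := by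
          rw [← Real.rpow_add hx, ← Real.rpow_sub hx]
          congr 3
          ring
  have second : 1 / (2 * Y) * (64 * R * E * Y ^ 2 / x ^ 2) ≤ 64 * T ^ 2 * x ^ (-(46 * c)) := by
    calc 1 / (2 * Y) * (64 * R * E * Y ^ 2 / x ^ 2) = 32 * R * E * Y / x ^ 2 := by
          field_simp
          ring
      _ ≤ 32 * (2 * x ^ (9 * δ + 50 * c)) * (T * x ^ (1 - ε + c)) *
          (T * x ^ (1 + δ + 3 * c)) / x ^ 2 := by gcongr
      _ = 64 * T ^ 2 * (x ^ (9 * δ + 50 * c) * x ^ (1 - ε + c) * x ^ (1 + δ + 3 * c) /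
          x ^ (2 : ℝ)) := by
          rw [hx2]
          ring
      _ = 64 * T ^ 2 * x ^ (-(46 * c)) := by
          rw [← Real.rpow_add hx, ← Real.rpow_add hx, ← Real.rpow_sub hx]
          congr 2
          rw [hε]
          ring
  rw [mul_add]
  linarith

end Pool.Agent.Helper43.QS
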